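import Mathlib
import Pool.Agent.H955R3.WindowD

open NumberField IsDedekindDomain Pool.Agent.H955R3.Window

namespace Pool.Agent.Results.MP_f42bc2_nt.WindowNotOpen

/-- **Q1 is false.**  There is a number field `K` of unit rank at least one (a real quadratic
field, namely `ℚ(√2)`) such that for every nonzero prime ideal `𝔭` of its ring of integers the
Euclidean window `w(𝔭)` has the least element `N𝔭`; in particular `w(𝔭)` is not an open subset
of `(1, ∞)`. -/
theorem result : ∃ (K : Type) (_ : Field K) (_ : NumberField K),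
    1 ≤ NumberField.Units.rank K ∧ Module.finrank ℚ K = 2 ∧
    Nonempty (HeightOneSpectrum (𝓞 K)) ∧
    ∀ p : HeightOneSpectrum (𝓞 K),
      IsLeast (window p) (Ideal.absNorm p.asIdeal : ℝ) ∧
      ¬ IsOpen {x : Set.Ioi (1 : ℝ) | (x : ℝ) ∈ window p} := by
  refine ⟨F, inferInstance, inferInstance, rank_F, ?_, ?_, ?_⟩
  · exact QuadraticAlgebra.finrank_eq_two _ _
  · have h : ¬ IsField (𝓞 F) := NumberField.RingOfIntegers.not_isField F
    obtain ⟨I, hI0, hI1⟩ := Ring.not_isField_iff_exists_prime.mp h
    exact ⟨⟨I, hI1, hI0⟩⟩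
  · intro p
    exact ⟨isLeast_window_F p, not_isOpen_of_isLeast (one_lt_absNorm p) (isLeast_window_F p)⟩

end Pool.Agent.Results.MP_f42bc2_nt.WindowNotOpen
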